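import Pool.Agent.Q222.MS.Lower

namespace Pool.Agent.Results.MP_bb9d96_lc.StepTight

open Q222.MS Filter

/-- **Main theorem.** The exponential bound for the minimum step of an SFT in terms of the number of
vertices of a deterministic presentation is tight.

First part: there are `c > 0` and SFTs `X 0, X 1, …` (over finite alphabets) with `s_d(X k) → ∞` such
that the minimum step of `X k` is at least `2 ^ (c * s_d(X k))` for every `k`.

Second part (the growth function `f`): for every `n ≥ 5` there is an SFT with a deterministic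
presentation with at most `n` vertices whose minimum step is at least `2 ^ ((n - 1) / 4)`. -/
theorem result :
    (∃ c : ℝ, 0 < c ∧ ∃ (A : ℕ → Type) (_ : ∀ k, Fintype (A k)) (X : ∀ k, Set (ℤ → A k)),
      (∀ k, IsSFT (X k)) ∧ (∀ k, ∃ n, HasDet (X k) n) ∧
      Tendsto (fun k => sd (X k)) atTop atTop ∧
      ∀ k, (2 : ℝ) ^ (c * (sd (X k) : ℝ)) ≤ (minStep (X k) : ℝ)) ∧
    (∀ n : ℕ, 5 ≤ n → ∃ (A : Type) (_ : Fintype A) (X : Set (ℤ → A)),
      IsSFT X ∧ (∃ m, HasDet X m) ∧ sd X ≤ n ∧ 2 ^ ((n - 1) / 4) ≤ minStep X) := by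
  constructor
  · refine ⟨1 / 5, by norm_num, fun K => Lt K, fun K => inferInstance, fun K => X K,
      fun K => ⟨_, isStep K⟩, fun K => ⟨_, hasDet K⟩, tendsto_sd, fun K => ?_⟩
    rw [minStep_X]
    have h1 : (sd (X K) : ℝ) ≤ 4 * ((K : ℝ) + 1) + 1 := by
      have := sd_le K
      exact_mod_cast this
    have h2 : (1 / 5 : ℝ) * (sd (X K) : ℝ) ≤ ((K + 1 : ℕ) : ℝ) := by
      push_cast
      have : (0 : ℝ) ≤ K := Nat.cast_nonneg K
      linarith
    calc (2 : ℝ) ^ ((1 / 5 : ℝ) * (sd (X K) : ℝ)) ≤ (2 : ℝ) ^ (((K + 1 : ℕ) : ℝ)) :=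
          Real.rpow_le_rpow_of_exponent_le (by norm_num) h2
      _ = ((2 ^ (K + 1) : ℕ) : ℝ) := by
          rw [Real.rpow_natCast]
          push_cast
          rfl
  · intro n hn
    obtain ⟨K, hK⟩ : ∃ K, (n - 1) / 4 = K + 1 := ⟨(n - 1) / 4 - 1, by omega⟩
    refine ⟨Lt K, inferInstance, X K, ⟨_, isStep K⟩, ⟨_, hasDet K⟩, ?_, ?_⟩
    · have := sd_le K
      omega
    · rw [minStep_X, hK]

end Pool.Agent.Results.MP_bb9d96_lc.StepTight
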